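import Pool.Agent.W314.BA.Stm

/-! MP_f2742c_an, part CV: ball averages of smoothed functions. -/

open MeasureTheory Set Filter Topology Real
open scoped ENNReal NNReal

namespace Pool.Agent.W392.BA

open Pool.Agent.W314.BA

noncomputable section

theorem ee_add (a b : ℝ) : ee (a + b) = ee a * ee b := by
  unfold ee
  rw [← Complex.exp_add]
  congr 1
  push_cast
  ring

theorem ee_norm (a : ℝ) : ‖ee a‖ = 1 := by
  unfold ee
  have : 2 * π * Complex.I * a = ((2 * π * a : ℝ) : ℂ) * Complex.I := by push_cast; ring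
  rw [this, Complex.norm_exp_ofReal_mul_I]

theorem ee_cont : Continuous ee := by
  unfold ee
  fun_prop

/-- extension of kernels -/
def Fx (F : ℝ → ℝ) (s : ℝ) : ℝ := F (max s 1)

theorem Fx_cont {F : ℝ → ℝ} (h : ContinuousOn F (Ici 1)) : Continuous (Fx F) :=
  h.comp_continuous (continuous_id.max continuous_const) (fun s => le_max_right s 1)

theorem Fx_hh (F : ℝ → ℝ) (g : G) : Fx F (hh g) = F (hh g) := by
  unfold Fx
  rw [max_eq_left (one_le_hh g)]

theorem int_F {F : ℝ → ℝ} (h : KF F) : Integrable (fun g => F (hh g)) hm := by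
  obtain ⟨hc, C, hC⟩ := h
  have hC0 : 0 ≤ C := by
    have h1 := hC 1 le_rfl
    have h2 : 0 < Fs 2 1 := by unfold Fs; norm_num
    have h3 : 0 ≤ C * Fs 2 1 := (abs_nonneg _).trans h1
    exact nonneg_of_mul_nonneg_left h3 h2
  have h1 : Integrable (Fx F) (hm.map hh) := by
    rw [map_hh]
    have h2 : Integrable (fun x : ℝ => C * (1 + x ^ 2)⁻¹) ((volume : Measure ℝ).restrict (Ici 1)) :=
      (integrable_inv_one_add_sq.const_mul C).restrict
    refine h2.mono' (Fx_cont hc).aestronglyMeasurable ?_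
    rw [ae_restrict_iff' measurableSet_Ici]
    refine Eventually.of_forall fun t ht => ?_
    have ht' : 1 ≤ t := ht
    unfold Fx
    rw [max_eq_left ht', Real.norm_eq_abs]
    refine (hC t ht').trans (mul_le_mul_of_nonneg_left ?_ hC0)
    unfold Fs
    apply inv_anti₀ (by positivity)
    nlinarith
  rw [integrable_map_measure (Fx_cont hc).aestronglyMeasurable hh_measurable.aemeasurable] at h1
  have e : Fx F ∘ hh = fun g => F (hh g) := by
    funext g
    exact Fx_hh F g
  rwa [e] at h1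

theorem main (hP : PolarStmt) : ConvStmt := by
  intro Y _ _ μ c hS θ f hf F hF t ht y
  obtain ⟨hfm, Cf, hCf⟩ := hf
  have hmy : Measurable (fun u : G => (u, y)) := measurable_id.prodMk measurable_const
  set φ : G → ℂ := fun u => ee (θ * c u y) * f (u • y) with hφ
  have hφm : Measurable φ := by
    refine Measurable.mul ?_ ?_
    · have h1 : Measurable (fun u : G => c u y) := hS.c_meas.comp hmy
      have h2 : Measurable (fun n : ℤ => θ * (n : ℝ)) := measurable_from_top
      exact ee_cont.measurable.comp (h2.comp h1)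
    · exact hfm.comp (hS.smul_meas.comp hmy)
  have hφb : ∀ u, ‖φ u‖ ≤ Cf := by
    intro u
    rw [hφ]
    show ‖ee (θ * c u y) * f (u • y)‖ ≤ Cf
    rw [norm_mul, ee_norm, one_mul]
    exact hCf _
  have hCf0 : 0 ≤ Cf := (norm_nonneg _).trans (hφb 1)
  have e1 : ∀ g : G, ee (θ * c g y) * op c θ F f (g • y) =
      ∫ u, ((F (hh (u * g⁻¹)) : ℝ) : ℂ) * φ u ∂hm := by
    intro g
    unfold op
    rw [← integral_const_mul]
    have h1 : (fun v => ee (θ * c g y) * ((F (hh v) : ℂ) * (ee (θ * c v (g • y)) * f (v • g • y)))) =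
        fun v => (fun u => ((F (hh (u * g⁻¹)) : ℝ) : ℂ) * φ u) (v * g) := by
      funext v
      simp only [hφ, mul_inv_cancel_right]
      rw [hS.coc v g y, mul_smul, Int.cast_add, mul_add, ee_add]
      ring
    rw [h1, integral_mul_right_eq_self (fun u => ((F (hh (u * g⁻¹)) : ℝ) : ℂ) * φ u) g]
  have hFint := int_F hF
  have hmeas : AEStronglyMeasurable (Function.uncurry fun g u : G =>
      ((F (hh (u * g⁻¹)) : ℝ) : ℂ) * φ u) ((bm t).prod hm) := by
    have h1 : (Function.uncurry fun g u : G => ((F (hh (u * g⁻¹)) : ℝ) : ℂ) * φ u) =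
        fun p : G × G => ((Fx F (hh (p.2 * p.1⁻¹)) : ℝ) : ℂ) * φ p.2 := by
      funext p
      show ((F (hh (p.2 * p.1⁻¹)) : ℝ) : ℂ) * φ p.2 = _
      rw [Fx_hh]
    rw [h1]
    refine (Measurable.mul ?_ (hφm.comp measurable_snd)).aestronglyMeasurable
    refine Complex.measurable_ofReal.comp ((Fx_cont hF.1).measurable.comp (hh_measurable.comp ?_))
    exact measurable_snd.mul measurable_fst.inv
  have hshift : ∀ g : G, Integrable (fun u => F (hh (u * g⁻¹))) hm :=
    fun g => hFint.comp_mul_right g⁻¹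
  have hone : ∀ g : G, Integrable (fun u => ((F (hh (u * g⁻¹)) : ℝ) : ℂ) * φ u) hm := by
    intro g
    refine ((hshift g).norm.mul_const Cf).mono' ?_ (Eventually.of_forall fun u => ?_)
    · have := (hshift g).aestronglyMeasurable
      exact (Complex.continuous_ofReal.comp_aestronglyMeasurable this).mul
        hφm.aestronglyMeasurable
    · rw [norm_mul, Complex.norm_real]
      exact mul_le_mul_of_nonneg_left (hφb u) (norm_nonneg _)
  have hprod : Integrable (Function.uncurry fun g u : G =>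
      ((F (hh (u * g⁻¹)) : ℝ) : ℂ) * φ u) ((bm t).prod hm) := by
    rw [integrable_prod_iff hmeas]
    refine ⟨Eventually.of_forall fun g => hone g, ?_⟩
    refine (integrable_const ((∫ u, ‖F (hh u)‖ ∂hm) * Cf)).mono'
      hmeas.norm.integral_prod_right' (Eventually.of_forall fun g => ?_)
    rw [Real.norm_of_nonneg (integral_nonneg fun u => norm_nonneg _)]
    show ∫ u, ‖((F (hh (u * g⁻¹)) : ℝ) : ℂ) * φ u‖ ∂hm ≤ _
    calc ∫ u, ‖((F (hh (u * g⁻¹)) : ℝ) : ℂ) * φ u‖ ∂hm
        ≤ ∫ u, ‖F (hh (u * g⁻¹))‖ * Cf ∂hm := by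
          refine integral_mono (hone g).norm ((hshift g).norm.mul_const Cf) fun u => ?_
          show ‖((F (hh (u * g⁻¹)) : ℝ) : ℂ) * φ u‖ ≤ ‖F (hh (u * g⁻¹))‖ * Cf
          rw [norm_mul, Complex.norm_real]
          exact mul_le_mul_of_nonneg_left (hφb u) (norm_nonneg _)
      _ = (∫ u, ‖F (hh u)‖ ∂hm) * Cf := by
          rw [integral_mul_const]
          congr 1
          exact integral_mul_right_eq_self (fun u => ‖F (hh u)‖) g⁻¹
  unfold tw
  simp_rw [e1]
  rw [integral_integral_swap hprod]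
  unfold op
  refine integral_congr_ae (Eventually.of_forall fun u => ?_)
  show ∫ g, ((F (hh (u * g⁻¹)) : ℝ) : ℂ) * φ u ∂(bm t) = ((Av F t (hh u) : ℝ) : ℂ) * φ u
  rw [integral_mul_const]
  congr 1
  rw [integral_complex_ofReal]
  congr 1
  have h1 := hP F hF.1 u⁻¹ t ht
  rw [hh_inv] at h1
  rw [← h1]
  refine integral_congr_ae (Eventually.of_forall fun g => ?_)
  show F (hh (u * g⁻¹)) = F (hh (g * u⁻¹))
  rw [← hh_inv (u * g⁻¹), mul_inv_rev, inv_inv]

end

end Pool.Agent.W392.BA
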